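import Pool.Agent.Lib.MP_6e1ed0_an.Final

namespace Pool.Agent.Results.MP_6e1ed0_an.NotQuadrant

open Pool.Agent.Lib.MP_6e1ed0_an

theorem result : ∃ f f' : ℝ → ℝ, IsPositiveReaction f f' ∧
    ∃ φ : ℝ → ℝ, LipschitzWith 1 φ ∧ (∀ x, φ x = -|x|) ∧
      (∃ u, IsSolution f (epi fun x => |x|) u) ∧ (∃ u, IsSolution f (epi φ) u) ∧
      ∀ uQ uG : E2 → ℝ, IsSolution f (epi fun x => |x|) uQ → IsSolution f (epi φ) uG →
        princEig (fun p => f' (uG p)) (epi φ) <
          princEig (fun p => f' (uQ p)) (epi fun x => |x|) := by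
  obtain ⟨U, v, h, H⟩ := main
  have l1 : LipschitzWith 1 fun x : ℝ => |x| := lipschitzWith_one_norm
  exact ⟨ff U v, ff' U v, h.isPositiveReaction, fun x => -|x|, l1.neg, fun _ => rfl,
    exists_solution h.good l1, exists_solution h.good l1.neg, H⟩

end Pool.Agent.Results.MP_6e1ed0_an.NotQuadrant
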